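import Pool.Agent.Run7.h35.NEG.Iface

/-!
# MP_6c92e3_an, piece LOWER: the tower space is far from Euclidean
-/

set_option autoImplicit false

namespace Run7.h480.NEG.LOWER

open Finset Module Run7.h35 Run7.h35.NEG

/-- choice of signs -/
lemma signs {F : Type*} [NormedAddCommGroup F] [InnerProductSpace ℝ F] {ι : Type*}
    [DecidableEq ι] (v : ι → F) (I : Finset ι) :
    ∃ e : ι → ℝ, (∀ i, e i ^ 2 = 1) ∧ ‖∑ i ∈ I, e i • v i‖ ^ 2 ≤ ∑ i ∈ I, ‖v i‖ ^ 2 := by
  induction I using Finset.induction_on with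
  | empty => exact ⟨fun _ => 1, by simp, by simp⟩
  | insert j I hj ih =>
    obtain ⟨e, he, hle⟩ := ih
    set w := ∑ i ∈ I, e i • v i with hw
    obtain ⟨σ, hσ, hs⟩ : ∃ σ : ℝ, σ ^ 2 = 1 ∧ σ * inner ℝ (v j) w ≤ 0 := by
      by_cases h : inner ℝ (v j) w ≤ 0
      · exact ⟨1, by norm_num, by linarith⟩
      · exact ⟨-1, by norm_num, by push Not at h; linarith⟩
    refine ⟨fun i => if i = j then σ else e i, ?_, ?_⟩
    · intro i
      by_cases h : i = j
      · simp [h, hσ]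
      · simp [h, he i]
    · rw [Finset.sum_insert hj, Finset.sum_insert hj]
      have h1 : ∑ i ∈ I, (if i = j then σ else e i) • v i = w := by
        rw [hw]
        apply Finset.sum_congr rfl
        intro i hi
        have : i ≠ j := fun h => hj (h ▸ hi)
        simp [this]
      have h0 : (fun i => if i = j then σ else e i) j = σ := if_pos rfl
      rw [h1, h0, norm_add_sq_real, norm_smul, mul_pow, inner_smul_left]
      have h2 : ‖σ‖ ^ 2 = 1 := by rw [Real.norm_eq_abs, sq_abs]; exact hσ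
      rw [h2]
      simp only [conj_trivial]
      nlinarith [hle, hs]

variable {T : Tower}

/-- the content of `x_ν` -/
noncomputable def c0 (T : Tower) (ν : Fin (2 ^ T.a)) : ℕ → Fin (2 ^ T.a) → ℝ :=
  fun s μ => if s = 0 then (if μ = ν then 1 else 0) else 0

lemma acc_c0 (ν : Fin (2 ^ T.a)) (s : ℕ) (μ : Fin (2 ^ T.a)) :
    T.acc (c0 T ν) s μ = (T.K : ℝ) ^ s * (if μ = ν then 1 else 0) := by
  unfold Tower.acc c0
  rw [Finset.sum_eq_single 0]
  · simp
  · intro s' _ h; simp [h]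
  · intro h; simp at h

lemma cost_c0 (ν : Fin (2 ^ T.a)) (hk : 1 ≤ T.k 0) :
    T.cost (fun _ _ => 0) (c0 T ν) ≤ 2 := by
  unfold Tower.cost
  rw [Finset.sum_eq_single 0]
  · have h1 : ∑ μ, c0 T ν 0 μ ^ 2 = 1 := by
      unfold c0
      rw [Finset.sum_eq_single ν]
      · simp
      · intro μ _ h; simp [h]
      · intro h; exact absurd (Finset.mem_univ _) h
    have h2 : ∑ μ, |c0 T ν 0 μ| = 1 := by
      unfold c0
      rw [Finset.sum_eq_single ν]
      · simp
      · intro μ _ h; simp [h]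
      · intro h; exact absurd (Finset.mem_univ _) h
    rw [h1, h2]
    have h3 : (1:ℝ) ≤ T.k 0 := by exact_mod_cast hk
    have h4 : (1:ℝ) ^ 2 / (T.k 0 : ℝ) ≤ 1 := by
      rw [div_le_one (by linarith)]; linarith
    simp only [ne_eq, OfNat.ofNat_ne_zero, not_false_eq_true, zero_pow, Finset.sum_const_zero,
      zero_add]
    linarith
  · intro s _ h
    have : ∀ μ, c0 T ν s μ = 0 := by intro μ; unfold c0; simp [h]
    simp [this]
  · intro h; simp at h

/-- the inner product of images under an isometric matrix -/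
lemma pair {m N : ℕ} (G : Fin m → Fin N → ℝ)
    (hG : ∀ ν μ, ∑ b, G b ν * G b μ = if ν = μ then 1 else 0) (u v : Fin N → ℝ) :
    ∑ b, (∑ μ, G b μ * u μ) * (∑ μ, G b μ * v μ) = ∑ μ, u μ * v μ := by
  calc ∑ b, (∑ μ, G b μ * u μ) * (∑ μ, G b μ * v μ)
      = ∑ b, ∑ μ, ∑ μ', (G b μ * u μ) * (G b μ' * v μ') := by
        refine Finset.sum_congr rfl fun b _ => ?_
        rw [Finset.sum_mul_sum]
    _ = ∑ μ, ∑ μ', ∑ b, (G b μ * u μ) * (G b μ' * v μ') := by
        rw [Finset.sum_comm]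
        refine Finset.sum_congr rfl fun μ _ => ?_
        rw [Finset.sum_comm]
    _ = ∑ μ, ∑ μ', u μ * v μ' * (if μ = μ' then 1 else 0) := by
        refine Finset.sum_congr rfl fun μ _ => Finset.sum_congr rfl fun μ' _ => ?_
        rw [← hG μ μ', Finset.mul_sum]
        refine Finset.sum_congr rfl fun b _ => ?_
        ring
    _ = _ := by
        refine Finset.sum_congr rfl fun μ _ => ?_
        rw [Finset.sum_eq_single μ]
        · simp
        · intro μ' _ h; simp [Ne.symm h]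
        · intro h; exact absurd (Finset.mem_univ _) h

lemma k_mono {H ε C₀ : ℝ} {g Γ : ℕ} (ok : T.OK H ε C₀ g Γ) (hg : 1 ≤ g) :
    ∀ j ≤ T.top, T.k (T.top - j) ≤ T.k T.top := by
  intro j
  induction j with
  | zero => intro _; simp
  | succ j ih =>
    intro hj
    refine le_trans ?_ (ih (by omega))
    have hlt : T.top - (j + 1) < T.top := by omega
    have h1 := ok.gap _ hlt
    have h2 := ok.n_eq _ hlt
    have e : T.top - (j + 1) + 1 = T.top - j := by omega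
    rw [e] at h1
    have hk : 1 ≤ T.k (T.top - (j + 1)) := le_trans ok.one_le_a (ok.k_ge _)
    calc T.k (T.top - (j + 1)) ≤ T.k (T.top - (j + 1)) ^ 30 := Nat.le_self_pow (by norm_num) _
      _ = T.n (T.top - (j + 1)) := h2.symm
      _ ≤ T.n (T.top - (j + 1)) ^ g := Nat.le_self_pow (by omega) _
      _ ≤ _ := h1

lemma k_le {H ε C₀ : ℝ} {g Γ : ℕ} (ok : T.OK H ε C₀ g Γ) (hg : 1 ≤ g) {s : ℕ} (hs : s ≤ T.top) :
    T.k s ≤ T.k T.top := by
  have := k_mono ok hg (T.top - s) (by omega)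
  rwa [show T.top - (T.top - s) = s by omega] at this

/-- the cost of a representation of a vector whose top part is `K^top G e` -/
lemma cost_lower {H ε C₀ : ℝ} {g Γ : ℕ} (ok : T.OK H ε C₀ g Γ) (hg : 4 ≤ g) (hK : 1 ≤ T.K)
    (hΓ : ((T.top + 1) * T.K ^ T.top) ^ 2 * ((T.top + 1) * T.K ^ T.top) ^ 2 ≤ 2 ^ T.a)
    (e : Fin (2 ^ T.a) → ℝ) (he : ∀ ν, e ν ^ 2 = 1)
    (y : (s : ℕ) → Fin (T.n s) → ℝ) (c : ℕ → Fin (2 ^ T.a) → ℝ)
    (h : ∀ b, (T.K : ℝ) ^ T.top * ∑ μ, T.G T.top b μ * e μ = T.ev y c T.top b) :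
    ((T.K : ℝ) ^ T.top) ^ 2 * 2 ^ T.a ≤ 4 * T.cost y c := by
  set q := Real.sqrt (T.cost y c) with hq
  set N : ℝ := 2 ^ T.a with hN
  have hN0 : 0 < N := by positivity
  have hterm : ∀ s ∈ range (T.top + 1), 0 ≤ ∑ b, y s b ^ 2 + ∑ ν, c s ν ^ 2 +
      (∑ ν, |c s ν|) ^ 2 / (T.k s : ℝ) := fun s _ => by positivity
  have hcost : 0 ≤ T.cost y c := Finset.sum_nonneg hterm
  have hq0 : 0 ≤ q := Real.sqrt_nonneg _
  have hq2 : q ^ 2 = T.cost y c := Real.sq_sqrt hcost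
  have hle : ∀ s ≤ T.top, ∑ b, y s b ^ 2 + ∑ ν, c s ν ^ 2 + (∑ ν, |c s ν|) ^ 2 / (T.k s : ℝ) ≤
      T.cost y c := fun s hs => Finset.single_le_sum hterm (Finset.mem_range.mpr (by omega))
  have hee : ∑ ν, e ν * e ν = N := by
    have : ∀ ν, e ν * e ν = 1 := fun ν => by rw [← sq]; exact he ν
    simp [this, hN]
  have heabs : ∀ ν, |e ν| = 1 := fun ν => by
    have := he ν
    rw [← sq_abs] at this
    have h0 := abs_nonneg (e ν)
    nlinarith
  -- pairing
  set g' : Fin (T.n T.top) → ℝ := fun b => ∑ μ, T.G T.top b μ * e μ with hg'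
  have h1 : (T.K : ℝ) ^ T.top * N = ∑ b, T.ev y c T.top b * g' b := by
    have : ∀ b, T.ev y c T.top b * g' b = (T.K : ℝ) ^ T.top * (g' b * g' b) := by
      intro b; rw [← h b]; ring
    simp only [this]
    rw [← Finset.mul_sum]
    have := pair (T.G T.top) ok.topG e e
    rw [hee] at this
    rw [← this]
  have h2 : ∑ b, T.ev y c T.top b * g' b =
      ∑ b, y T.top b * g' b + ∑ ν, T.acc c T.top ν * e ν := by
    have := pair (T.G T.top) ok.topG (T.acc c T.top) e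
    rw [← this, ← Finset.sum_add_distrib]
    refine Finset.sum_congr rfl fun b _ => ?_
    unfold Tower.ev
    ring
  have h3 : ∑ b, y T.top b * g' b ≤ q * Real.sqrt N := by
    have h4 := Finset.sum_mul_sq_le_sq_mul_sq univ (fun b => y T.top b) g'
    have h5 : ∑ b, g' b ^ 2 = N := by
      have := pair (T.G T.top) ok.topG e e
      rw [hee] at this
      rw [← this]
      refine Finset.sum_congr rfl fun b _ => ?_
      rw [sq]
    rw [h5] at h4
    have h6 : ∑ b, y T.top b ^ 2 ≤ q ^ 2 := by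
      rw [hq2]
      have := hle T.top le_rfl
      have h7 : 0 ≤ ∑ ν, c T.top ν ^ 2 := by positivity
      have h8 : 0 ≤ (∑ ν, |c T.top ν|) ^ 2 / (T.k T.top : ℝ) := by positivity
      linarith
    apply le_of_sq_le_sq _ (by positivity)
    rw [mul_pow, Real.sq_sqrt hN0.le]
    exact h4.trans (mul_le_mul_of_nonneg_right h6 hN0.le)
  have h4 : ∀ s ≤ T.top, ∑ ν, |c s ν| ≤ Real.sqrt (T.k T.top) * q := by
    intro s hs
    have h5 := hle s hs
    have h6 : 0 ≤ ∑ ν, c s ν ^ 2 := by positivity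
    have h7 : 0 ≤ ∑ b, y s b ^ 2 := by positivity
    have hk1 : 1 ≤ T.k s := le_trans ok.one_le_a (ok.k_ge _)
    have hk : (0:ℝ) < T.k s := by exact_mod_cast hk1
    have h8 : (∑ ν, |c s ν|) ^ 2 / (T.k s : ℝ) ≤ q ^ 2 := by rw [hq2]; linarith
    rw [div_le_iff₀ hk] at h8
    have h9 : (T.k s : ℝ) ≤ T.k T.top := by exact_mod_cast k_le ok (by omega) hs
    apply le_of_sq_le_sq _ (by positivity)
    rw [mul_pow, Real.sq_sqrt (by positivity)]
    nlinarith [sq_nonneg q]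
  have hK1 : (1:ℝ) ≤ T.K := by exact_mod_cast hK
  have h5 : ∑ ν, T.acc c T.top ν * e ν ≤
      ((T.top : ℝ) + 1) * (T.K : ℝ) ^ T.top * (Real.sqrt (T.k T.top) * q) := by
    calc ∑ ν, T.acc c T.top ν * e ν ≤ ∑ ν, |T.acc c T.top ν| := by
          refine Finset.sum_le_sum fun ν _ => ?_
          refine (le_abs_self _).trans ?_
          rw [abs_mul, heabs, mul_one]
      _ ≤ ∑ ν, ∑ s ∈ range (T.top + 1), (T.K : ℝ) ^ T.top * |c s ν| := by
          refine Finset.sum_le_sum fun ν _ => ?_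
          unfold Tower.acc
          refine (Finset.abs_sum_le_sum_abs _ _).trans ?_
          refine Finset.sum_le_sum fun s _ => ?_
          rw [abs_mul, abs_of_nonneg (by positivity : (0:ℝ) ≤ (T.K : ℝ) ^ (T.top - s))]
          exact mul_le_mul_of_nonneg_right (pow_le_pow_right₀ hK1 (by omega)) (abs_nonneg _)
      _ = ∑ s ∈ range (T.top + 1), (T.K : ℝ) ^ T.top * ∑ ν, |c s ν| := by
          rw [Finset.sum_comm]
          refine Finset.sum_congr rfl fun s _ => ?_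
          rw [Finset.mul_sum]
      _ ≤ ∑ s ∈ range (T.top + 1), (T.K : ℝ) ^ T.top * (Real.sqrt (T.k T.top) * q) := by
          refine Finset.sum_le_sum fun s hs => ?_
          exact mul_le_mul_of_nonneg_left (h4 s (by rw [Finset.mem_range] at hs; omega))
            (by positivity)
      _ = _ := by
          rw [Finset.sum_const, Finset.card_range, nsmul_eq_mul]
          push_cast
          ring
  -- the numerical condition
  have h6 : ((T.top : ℝ) + 1) * (T.K : ℝ) ^ T.top * Real.sqrt (T.k T.top) ≤ Real.sqrt N := by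
    set M : ℕ := ((T.top + 1) * T.K ^ T.top) ^ 2 with hM
    have hk1 : 1 ≤ T.k T.top := le_trans ok.one_le_a (ok.k_ge _)
    have h7 : T.k T.top ^ 4 ≤ 2 ^ T.a := (Nat.pow_le_pow_right hk1 hg).trans ok.k_top
    have h8 : M * T.k T.top ≤ 2 ^ T.a := by
      have h9 : (M * T.k T.top) ^ 4 ≤ (2 ^ T.a) ^ 4 := by
        calc (M * T.k T.top) ^ 4 = (M * M) ^ 2 * T.k T.top ^ 4 := by ring
          _ ≤ (2 ^ T.a) ^ 2 * 2 ^ T.a := Nat.mul_le_mul (Nat.pow_le_pow_left hΓ 2) h7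
          _ = (2 ^ T.a) ^ 3 := by ring
          _ ≤ (2 ^ T.a) ^ 4 := Nat.pow_le_pow_right (Nat.pos_of_ne_zero (by positivity)) (by norm_num)
      exact (Nat.pow_le_pow_iff_left (by norm_num)).mp h9
    apply Real.le_sqrt_of_sq_le
    rw [mul_pow, Real.sq_sqrt (by positivity)]
    have h10 : ((M * T.k T.top : ℕ) : ℝ) ≤ ((2 ^ T.a : ℕ) : ℝ) := by exact_mod_cast h8
    rw [hM] at h10
    push_cast at h10
    exact h10
  have h7 : (T.K : ℝ) ^ T.top * N ≤ 2 * q * Real.sqrt N := by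
    rw [h1, h2]
    have := mul_le_mul_of_nonneg_right h6 hq0
    nlinarith [h3, h5]
  have hs0 : 0 < Real.sqrt N := Real.sqrt_pos.mpr hN0
  have h8 : (T.K : ℝ) ^ T.top * Real.sqrt N ≤ 2 * q := by
    have h9 : (T.K : ℝ) ^ T.top * Real.sqrt N * Real.sqrt N ≤ 2 * q * Real.sqrt N := by
      rw [mul_assoc, Real.mul_self_sqrt hN0.le]; exact h7
    exact le_of_mul_le_mul_right h9 hs0
  have h9 : ((T.K : ℝ) ^ T.top * Real.sqrt N) ^ 2 ≤ (2 * q) ^ 2 :=
    pow_le_pow_left₀ (by positivity) h8 2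
  rw [mul_pow, Real.sq_sqrt hN0.le, mul_pow, hq2] at h9
  linarith

theorem main : S_LOWER := by
  intro K top hK
  set M : ℕ := ((top + 1) * K ^ top) ^ 2 with hM
  refine ⟨M * M, ?_⟩
  intro H ε C₀ g T hg hTK hTtop ok E _ _ _ X S
  subst hTK hTtop
  have hΓ : M * M ≤ 2 ^ T.a :=
    (Nat.lt_two_pow_self.le).trans (Nat.pow_le_pow_right (by norm_num) ok.base)
  have hk0 : 1 ≤ T.k 0 := le_trans ok.one_le_a (ok.k_ge _)
  have hx : ∀ ν : Fin (2 ^ T.a), ∃ x : E, ∀ s ≤ T.top, ∀ b,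
      X.lev s x b = T.ev (fun _ _ => 0) (c0 T ν) s b := fun ν => X.surj _
  choose x hx using hx
  have hxn : ∀ ν, ‖x ν‖ ^ 2 ≤ 2 := fun ν => (X.upper _ _ _ (hx ν)).trans (cost_c0 ν hk0)
  obtain ⟨e, he, hle⟩ := signs (fun ν => S (x ν)) (univ : Finset (Fin (2 ^ T.a)))
  set z : E := ∑ ν, e ν • x ν with hz
  have hlev : ∀ b, X.lev T.top z b = (T.K : ℝ) ^ T.top * ∑ μ, T.G T.top b μ * e μ := by
    intro b
    rw [hz, map_sum]
    simp only [map_smul, Finset.sum_apply, Pi.smul_apply, smul_eq_mul]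
    rw [Finset.mul_sum]
    refine Finset.sum_congr rfl fun ν _ => ?_
    rw [hx ν T.top le_rfl b]
    unfold Tower.ev
    simp only [acc_c0, zero_add]
    rw [Finset.sum_eq_single ν]
    · simp; ring
    · intro μ _ h; simp [h]
    · intro h; exact absurd (Finset.mem_univ _) h
  have hlow : ((T.K : ℝ) ^ T.top) ^ 2 * 2 ^ T.a ≤ 4 * ‖z‖ ^ 2 := by
    apply le_of_forall_pos_le_add
    intro δ hδ
    obtain ⟨y, c, h1, h2⟩ := X.rep z (δ / 4) (by positivity)
    have h3 := cost_lower ok hg hK hΓ e he y c (fun b => by rw [← h1 T.top le_rfl b, hlev b])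
    linarith
  -- the norm of `z`
  have hz1 : ‖z‖ ≤ ‖(S.symm : EuclideanSpace ℝ (Fin (finrank ℝ E)) →L[ℝ] E)‖ * ‖S z‖ := by
    have := (S.symm : EuclideanSpace ℝ (Fin (finrank ℝ E)) →L[ℝ] E).le_opNorm (S z)
    simpa using this
  have hz2 : ‖S z‖ ^ 2 ≤ ‖(S : E →L[ℝ] EuclideanSpace ℝ (Fin (finrank ℝ E)))‖ ^ 2 * (2 * 2 ^ T.a) := by
    have h1 : S z = ∑ ν, e ν • S (x ν) := by
      rw [hz, map_sum]; simp only [map_smul]
    rw [h1]
    refine hle.trans ?_
    calc ∑ ν, ‖S (x ν)‖ ^ 2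
        ≤ ∑ _ν : Fin (2 ^ T.a), ‖(S : E →L[ℝ] EuclideanSpace ℝ (Fin (finrank ℝ E)))‖ ^ 2 * 2 := by
          refine Finset.sum_le_sum fun ν _ => ?_
          have h2 := (S : E →L[ℝ] EuclideanSpace ℝ (Fin (finrank ℝ E))).le_opNorm (x ν)
          have h3 : ‖S (x ν)‖ ^ 2 ≤
              (‖(S : E →L[ℝ] EuclideanSpace ℝ (Fin (finrank ℝ E)))‖ * ‖x ν‖) ^ 2 :=
            pow_le_pow_left₀ (norm_nonneg _) h2 2
          rw [mul_pow] at h3
          exact h3.trans (mul_le_mul_of_nonneg_left (hxn ν) (sq_nonneg _))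
      _ = _ := by
          rw [Finset.sum_const, Finset.card_univ, Fintype.card_fin, nsmul_eq_mul]
          push_cast
          ring
  set A := ‖(S : E →L[ℝ] EuclideanSpace ℝ (Fin (finrank ℝ E)))‖ with hA
  set B := ‖(S.symm : EuclideanSpace ℝ (Fin (finrank ℝ E)) →L[ℝ] E)‖ with hB
  have hA0 : 0 ≤ A := norm_nonneg _
  have hB0 : 0 ≤ B := norm_nonneg _
  have hN0 : (0:ℝ) < 2 ^ T.a := by positivity
  have h3 : ‖z‖ ^ 2 ≤ B ^ 2 * (A ^ 2 * (2 * 2 ^ T.a)) := by
    have h4 : ‖z‖ ^ 2 ≤ (B * ‖S z‖) ^ 2 := pow_le_pow_left₀ (norm_nonneg _) hz1 2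
    rw [mul_pow] at h4
    exact h4.trans (mul_le_mul_of_nonneg_left hz2 (sq_nonneg _))
  have h4 : ((T.K : ℝ) ^ T.top) ^ 2 ≤ 8 * (A * B) ^ 2 := by
    have h5 : ((T.K : ℝ) ^ T.top) ^ 2 * 2 ^ T.a ≤ 8 * (A * B) ^ 2 * 2 ^ T.a := by
      refine hlow.trans ?_
      nlinarith
    exact le_of_mul_le_mul_right h5 hN0
  apply le_of_sq_le_sq _ (by positivity)
  rw [div_pow]
  nlinarith [sq_nonneg (A * B)]

end Run7.h480.NEG.LOWER
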