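import Pool.Agent.Run7.h35.NEG.Iface

/-!
# MP_6c92e3_an, piece SPACE: construction of the tower space

`W` is the space of the pairs (noise, contents) with the norm `√cost`; the tower space is the
quotient of `W` by the kernel of the evaluation map.
-/

set_option autoImplicit false

namespace Run7.h480.NEG.SPACE

open Finset Module Run7.h35.NEG

noncomputable section

variable (T : Tower)

/-- pairs (noise, contents) -/
def V : Type :=
  (∀ s : Fin (T.top + 1), Fin (T.n s) → ℝ) × (Fin (T.top + 1) → Fin (2 ^ T.a) → ℝ)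

instance instAG : AddCommGroup (V T) :=
  inferInstanceAs (AddCommGroup
    ((∀ s : Fin (T.top + 1), Fin (T.n s) → ℝ) × (Fin (T.top + 1) → Fin (2 ^ T.a) → ℝ)))

instance instMod : Module ℝ (V T) :=
  inferInstanceAs (Module ℝ
    ((∀ s : Fin (T.top + 1), Fin (T.n s) → ℝ) × (Fin (T.top + 1) → Fin (2 ^ T.a) → ℝ)))

instance instFin : FiniteDimensional ℝ (V T) :=
  inferInstanceAs (FiniteDimensional ℝ
    ((∀ s : Fin (T.top + 1), Fin (T.n s) → ℝ) × (Fin (T.top + 1) → Fin (2 ^ T.a) → ℝ)))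

variable {T}

lemma add_fst (w w' : V T) : (w + w').1 = w.1 + w'.1 := rfl
lemma add_snd (w w' : V T) : (w + w').2 = w.2 + w'.2 := rfl
lemma neg_fst (w : V T) : (-w).1 = -w.1 := rfl
lemma neg_snd (w : V T) : (-w).2 = -w.2 := rfl
lemma smul_fst (r : ℝ) (w : V T) : (r • w).1 = r • w.1 := rfl
lemma smul_snd (r : ℝ) (w : V T) : (r • w).2 = r • w.2 := rfl
lemma zero_fst : (0 : V T).1 = 0 := rfl
lemma zero_snd : (0 : V T).2 = 0 := rfl

/-- the cost -/
def costF (w : V T) : ℝ :=
  ∑ s : Fin (T.top + 1),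
    (∑ b, w.1 s b ^ 2 + ∑ ν, w.2 s ν ^ 2 + (∑ ν, |w.2 s ν|) ^ 2 / (T.k s : ℝ))

lemma costF_nonneg (w : V T) : 0 ≤ costF w := by
  unfold costF
  apply Finset.sum_nonneg
  intro s _
  positivity

lemma sqrt_sum_add {ι : Type} (I : Finset ι) (f g h : ι → ℝ) (hf : ∀ i ∈ I, 0 ≤ f i)
    (hg : ∀ i ∈ I, 0 ≤ g i) (hh : ∀ i ∈ I, 0 ≤ h i)
    (h3 : ∀ i ∈ I, Real.sqrt (f i) ≤ Real.sqrt (g i) + Real.sqrt (h i)) :
    Real.sqrt (∑ i ∈ I, f i) ≤ Real.sqrt (∑ i ∈ I, g i) + Real.sqrt (∑ i ∈ I, h i) := by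
  have hG : 0 ≤ ∑ i ∈ I, g i := Finset.sum_nonneg hg
  have hH : 0 ≤ ∑ i ∈ I, h i := Finset.sum_nonneg hh
  apply Real.sqrt_le_iff.mpr
  refine ⟨by positivity, ?_⟩
  have h1 : ∑ i ∈ I, f i ≤ ∑ i ∈ I, (g i + h i + 2 * (Real.sqrt (g i) * Real.sqrt (h i))) := by
    apply Finset.sum_le_sum
    intro i hi
    have h4 := h3 i hi
    have h5 : Real.sqrt (f i) ^ 2 ≤ (Real.sqrt (g i) + Real.sqrt (h i)) ^ 2 :=
      pow_le_pow_left₀ (Real.sqrt_nonneg _) h4 2
    rw [Real.sq_sqrt (hf i hi), add_sq, Real.sq_sqrt (hg i hi), Real.sq_sqrt (hh i hi)] at h5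
    linarith
  have h2 : ∑ i ∈ I, Real.sqrt (g i) * Real.sqrt (h i) ≤
      Real.sqrt (∑ i ∈ I, g i) * Real.sqrt (∑ i ∈ I, h i) := by
    have h6 := Finset.sum_mul_sq_le_sq_mul_sq I (fun i => Real.sqrt (g i)) (fun i => Real.sqrt (h i))
    have e1 : ∑ i ∈ I, Real.sqrt (g i) ^ 2 = ∑ i ∈ I, g i :=
      Finset.sum_congr rfl (fun i hi => Real.sq_sqrt (hg i hi))
    have e2 : ∑ i ∈ I, Real.sqrt (h i) ^ 2 = ∑ i ∈ I, h i :=
      Finset.sum_congr rfl (fun i hi => Real.sq_sqrt (hh i hi))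
    rw [e1, e2] at h6
    rw [← Real.sqrt_mul hG]
    apply Real.le_sqrt_of_sq_le
    exact h6
  rw [Finset.sum_add_distrib, Finset.sum_add_distrib, ← Finset.mul_sum] at h1
  rw [add_sq, Real.sq_sqrt hG, Real.sq_sqrt hH]
  linarith

lemma sqrt_add2 {a b c a' b' c' : ℝ} (h1 : 0 ≤ a) (h2 : 0 ≤ b) (h3 : 0 ≤ c) (h1' : 0 ≤ a')
    (h2' : 0 ≤ b') (h3' : 0 ≤ c') (h : Real.sqrt c ≤ Real.sqrt a + Real.sqrt b)
    (h' : Real.sqrt c' ≤ Real.sqrt a' + Real.sqrt b') :
    Real.sqrt (c + c') ≤ Real.sqrt (a + a') + Real.sqrt (b + b') := by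
  have := sqrt_sum_add (Finset.univ : Finset (Fin 2)) ![c, c'] ![a, a'] ![b, b']
    (by simp [Fin.forall_fin_two, h3, h3']) (by simp [Fin.forall_fin_two, h1, h1'])
    (by simp [Fin.forall_fin_two, h2, h2']) (by simpa [Fin.forall_fin_two] using ⟨h, h'⟩)
  simpa [Fin.sum_univ_two] using this

lemma sqrt_cost_add (w w' : V T) :
    Real.sqrt (costF (w + w')) ≤ Real.sqrt (costF w) + Real.sqrt (costF w') := by
  unfold costF
  have key : ∀ {ι : Type} [Fintype ι] (f g : ι → ℝ),
      Real.sqrt (∑ i, (f i + g i) ^ 2) ≤ Real.sqrt (∑ i, f i ^ 2) + Real.sqrt (∑ i, g i ^ 2) := by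
    intro ι _ f g
    apply sqrt_sum_add
    · intro i _; positivity
    · intro i _; positivity
    · intro i _; positivity
    · intro i _
      rw [Real.sqrt_sq_eq_abs, Real.sqrt_sq_eq_abs, Real.sqrt_sq_eq_abs]
      exact abs_add_le _ _
  apply sqrt_sum_add
  · intro s _; positivity
  · intro s _; positivity
  · intro s _; positivity
  intro s _
  apply sqrt_add2 (by positivity) (by positivity) (by positivity) (by positivity) (by positivity)
    (by positivity)
  · apply sqrt_add2 (by positivity) (by positivity) (by positivity) (by positivity) (by positivity)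
      (by positivity)
    · exact key (w.1 s) (w'.1 s)
    · exact key (w.2 s) (w'.2 s)
  · have h : ∀ x : ℝ, 0 ≤ x → Real.sqrt (x ^ 2 / (T.k s : ℝ)) = x / Real.sqrt (T.k s : ℝ) := by
      intro x hx
      rw [Real.sqrt_div (by positivity), Real.sqrt_sq hx]
    rw [h _ (by positivity), h _ (by positivity), h _ (by positivity), ← add_div]
    apply div_le_div_of_nonneg_right _ (Real.sqrt_nonneg _)
    rw [← Finset.sum_add_distrib]
    apply Finset.sum_le_sum
    intro ν _
    exact abs_add_le _ _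

lemma costF_smul (r : ℝ) (w : V T) : costF (r • w) = r ^ 2 * costF w := by
  unfold costF
  rw [Finset.mul_sum]
  apply Finset.sum_congr rfl
  intro s _
  rw [smul_fst, smul_snd]
  simp only [Pi.smul_apply, smul_eq_mul, mul_pow, abs_mul, ← Finset.mul_sum, sq_abs]
  ring

lemma costF_eq_zero {w : V T} (h : costF w = 0) : w = 0 := by
  unfold costF at h
  rw [Finset.sum_eq_zero_iff_of_nonneg (fun s _ => by positivity)] at h
  have h1 : ∀ s b, w.1 s b = 0 := by
    intro s b
    have h2 := h s (Finset.mem_univ s)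
    have h3 : w.1 s b ^ 2 ≤ ∑ b, w.1 s b ^ 2 :=
      Finset.single_le_sum (f := fun b => w.1 s b ^ 2) (fun _ _ => sq_nonneg _) (Finset.mem_univ b)
    have h4 : 0 ≤ ∑ ν, w.2 s ν ^ 2 := by positivity
    have h5 : 0 ≤ (∑ ν, |w.2 s ν|) ^ 2 / (T.k s : ℝ) := by positivity
    have h6 : w.1 s b ^ 2 = 0 := le_antisymm (by linarith) (sq_nonneg _)
    exact pow_eq_zero_iff (two_ne_zero) |>.mp h6
  have h2 : ∀ s ν, w.2 s ν = 0 := by
    intro s b
    have h2 := h s (Finset.mem_univ s)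
    have h3 : w.2 s b ^ 2 ≤ ∑ b, w.2 s b ^ 2 :=
      Finset.single_le_sum (f := fun b => w.2 s b ^ 2) (fun _ _ => sq_nonneg _) (Finset.mem_univ b)
    have h4 : 0 ≤ ∑ ν, w.1 s ν ^ 2 := by positivity
    have h5 : 0 ≤ (∑ ν, |w.2 s ν|) ^ 2 / (T.k s : ℝ) := by positivity
    have h6 : w.2 s b ^ 2 = 0 := le_antisymm (by linarith) (sq_nonneg _)
    exact pow_eq_zero_iff (two_ne_zero) |>.mp h6
  apply Prod.ext
  · funext s b; exact h1 s b
  · funext s b; exact h2 s b

/-- the norm `√cost` -/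
def gn : AddGroupNorm (V T) where
  toFun w := Real.sqrt (costF w)
  map_zero' := by
    have : costF (0 : V T) = 0 := by
      have := costF_smul (0 : ℝ) (0 : V T)
      rw [zero_smul] at this
      rw [this]; ring
    rw [this]; exact Real.sqrt_zero
  add_le' := sqrt_cost_add
  neg' w := by
    have := costF_smul (-1 : ℝ) w
    rw [neg_one_smul] at this
    rw [this]; norm_num
  eq_zero_of_map_eq_zero' w h := by
    apply costF_eq_zero
    exact (Real.sqrt_eq_zero (costF_nonneg w)).mp h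

instance instNACG : NormedAddCommGroup (V T) := AddGroupNorm.toNormedAddCommGroup gn

lemma norm_def (w : V T) : ‖w‖ = Real.sqrt (costF w) := rfl

lemma norm_sq (w : V T) : ‖w‖ ^ 2 = costF w := by
  rw [norm_def, Real.sq_sqrt (costF_nonneg w)]

instance instNS : NormedSpace ℝ (V T) :=
  { instMod T with
    norm_smul_le := by
      intro r w
      rw [norm_def, norm_def, costF_smul, Real.sqrt_mul (sq_nonneg _), Real.sqrt_sq_eq_abs,
        Real.norm_eq_abs] }

/-- extension of the noise -/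
def exty (y : ∀ s : Fin (T.top + 1), Fin (T.n s) → ℝ) : (s : ℕ) → Fin (T.n s) → ℝ :=
  fun s => if h : s < T.top + 1 then y ⟨s, h⟩ else 0

/-- extension of the contents -/
def extc (c : Fin (T.top + 1) → Fin (2 ^ T.a) → ℝ) : ℕ → Fin (2 ^ T.a) → ℝ :=
  fun s => if h : s < T.top + 1 then c ⟨s, h⟩ else 0

lemma exty_add (y y' : ∀ s : Fin (T.top + 1), Fin (T.n s) → ℝ) (s : ℕ) (b : Fin (T.n s)) :
    exty (y + y') s b = exty y s b + exty y' s b := by
  unfold exty; split_ifs <;> simp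

lemma exty_smul (r : ℝ) (y : ∀ s : Fin (T.top + 1), Fin (T.n s) → ℝ) (s : ℕ) (b : Fin (T.n s)) :
    exty (r • y) s b = r * exty y s b := by
  unfold exty; split_ifs <;> simp

lemma extc_add (y y' : Fin (T.top + 1) → Fin (2 ^ T.a) → ℝ) (s : ℕ) (b : Fin (2 ^ T.a)) :
    extc (y + y') s b = extc y s b + extc y' s b := by
  unfold extc; split_ifs <;> simp

lemma extc_smul (r : ℝ) (y : Fin (T.top + 1) → Fin (2 ^ T.a) → ℝ) (s : ℕ) (b : Fin (2 ^ T.a)) :
    extc (r • y) s b = r * extc y s b := by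
  unfold extc; split_ifs <;> simp

/-- evaluation -/
def EV : V T →ₗ[ℝ] (∀ s : Fin (T.top + 1), Fin (T.n s) → ℝ) where
  toFun w := fun s b => T.ev (exty w.1) (extc w.2) s b
  map_add' w w' := by
    funext s b
    simp only [Tower.ev, Tower.acc, add_fst, add_snd, Pi.add_apply, exty_add, extc_add, mul_add,
      Finset.sum_add_distrib]
    ring
  map_smul' r w := by
    funext s b
    simp only [Tower.ev, Tower.acc, smul_fst, smul_snd, Pi.smul_apply, exty_smul, extc_smul,
      RingHom.id_apply, smul_eq_mul, mul_add, Finset.mul_sum]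
    congr 1
    refine Finset.sum_congr rfl fun ν _ => Finset.sum_congr rfl fun s' _ => ?_
    ring

lemma acc_congr (c c' : ℕ → Fin (2 ^ T.a) → ℝ) (s : ℕ) (h : ∀ s' ≤ s, c s' = c' s') :
    T.acc c s = T.acc c' s := by
  funext ν
  unfold Tower.acc
  apply Finset.sum_congr rfl
  intro s' hs'
  rw [h s' (by rw [Finset.mem_range] at hs'; omega)]

/-- restriction of a representation -/
def res (y : (s : ℕ) → Fin (T.n s) → ℝ) (c : ℕ → Fin (2 ^ T.a) → ℝ) : V T :=
  (fun s => y s, fun s => c s)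

lemma EV_res (y : (s : ℕ) → Fin (T.n s) → ℝ) (c : ℕ → Fin (2 ^ T.a) → ℝ)
    (s : Fin (T.top + 1)) (b : Fin (T.n s)) : EV (res y c) s b = T.ev y c s b := by
  show T.ev (exty (res y c).1) (extc (res y c).2) s b = _
  unfold Tower.ev
  have h1 : exty (res y c).1 s b = y s b := by
    unfold exty; rw [dif_pos s.2]; rfl
  have h2 : T.acc (extc (res y c).2) s = T.acc c s := by
    apply acc_congr
    intro s' hs'
    unfold extc
    rw [dif_pos (lt_of_le_of_lt hs' s.2)]
    rfl
  rw [h1, h2]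

lemma cost_eq (y : (s : ℕ) → Fin (T.n s) → ℝ) (c : ℕ → Fin (2 ^ T.a) → ℝ) :
    costF (res y c) = T.cost y c := by
  unfold costF Tower.cost
  rw [Finset.sum_range]
  rfl

lemma cost_ext (w : V T) : T.cost (exty w.1) (extc w.2) = costF w := by
  unfold costF Tower.cost
  rw [Finset.sum_range]
  apply Finset.sum_congr rfl
  intro s _
  have h1 : ∀ b, exty w.1 s b = w.1 s b := by
    intro b; unfold exty; rw [dif_pos s.2]
  have h2 : ∀ b, extc w.2 s b = w.2 s b := by
    intro b; unfold extc; rw [dif_pos s.2]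
  simp only [h1, h2]

variable (T)

/-- the tower space -/
def E : Type := V T ⧸ (LinearMap.ker (EV (T := T)))

instance closedKer : IsClosed ((LinearMap.ker (EV (T := T)) : Submodule ℝ (V T)) : Set (V T)) :=
  Submodule.closed_of_finiteDimensional _

instance instEN : NormedAddCommGroup (E T) :=
  inferInstanceAs (NormedAddCommGroup (V T ⧸ (LinearMap.ker (EV (T := T)))))

instance instES : NormedSpace ℝ (E T) :=
  inferInstanceAs (NormedSpace ℝ (V T ⧸ (LinearMap.ker (EV (T := T)))))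

instance instEF : FiniteDimensional ℝ (E T) :=
  inferInstanceAs (FiniteDimensional ℝ (V T ⧸ (LinearMap.ker (EV (T := T)))))

variable {T}

/-- the evaluation on the quotient -/
def EVq : E T →ₗ[ℝ] (∀ s : Fin (T.top + 1), Fin (T.n s) → ℝ) :=
  (LinearMap.ker (EV (T := T))).liftQ EV le_rfl

/-- class of a pair -/
def mk (w : V T) : E T := Submodule.Quotient.mk w

lemma EVq_mk (w : V T) : EVq (mk w) = EV w := rfl

lemma EVq_inj {x y : E T} (h : EVq x = EVq y) : x = y := by
  obtain ⟨w, rfl⟩ := Submodule.Quotient.mk_surjective _ x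
  obtain ⟨w', rfl⟩ := Submodule.Quotient.mk_surjective _ y
  have h' : EV w = EV w' := h
  refine (Submodule.Quotient.eq _).mpr ?_
  rw [LinearMap.mem_ker, map_sub, h', sub_self]

/-- the level-`s` part -/
def lev (s : ℕ) : E T →ₗ[ℝ] (Fin (T.n s) → ℝ) :=
  if h : s < T.top + 1 then (LinearMap.proj (⟨s, h⟩ : Fin (T.top + 1))).comp EVq else 0

lemma lev_apply {s : ℕ} (h : s < T.top + 1) (x : E T) (b : Fin (T.n s)) :
    lev s x b = EVq x ⟨s, h⟩ b := by
  unfold lev; rw [dif_pos h]; rfl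

theorem main : S_SPACE := by
  intro T _
  refine ⟨E T, inferInstance, inferInstance, inferInstance, ⟨{
    lev := lev
    upper := ?_
    rep := ?_
    surj := ?_ }⟩⟩
  · intro x y c h
    have h1 : x = mk (res y c) := by
      apply EVq_inj
      funext s b
      rw [EVq_mk, EV_res, ← h s (by have := s.2; omega) b, lev_apply s.2]
    rw [h1, ← cost_eq, ← norm_sq]
    exact pow_le_pow_left₀ (norm_nonneg _) (Submodule.Quotient.norm_mk_le _ _) 2
  · intro x δ hδ
    set ε : ℝ := min 1 (δ / (2 * ‖x‖ + 1)) with hε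
    have hx := norm_nonneg x
    have hε0 : 0 < ε := lt_min one_pos (by positivity)
    obtain ⟨w, hw, hn⟩ := Submodule.Quotient.norm_mk_lt (S := LinearMap.ker (EV (T := T))) x hε0
    refine ⟨exty w.1, extc w.2, ?_, ?_⟩
    · intro s hs b
      rw [lev_apply (by omega)]
      have : EVq x = EV w := by rw [← hw]; rfl
      rw [this]; rfl
    · rw [cost_ext, ← norm_sq]
      have h1 : ‖w‖ ^ 2 ≤ (‖x‖ + ε) ^ 2 := pow_le_pow_left₀ (norm_nonneg _) hn.le 2
      have h2 : ε ≤ 1 := min_le_left _ _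
      have h3 : ε * (2 * ‖x‖ + 1) ≤ δ := by
        have : ε ≤ δ / (2 * ‖x‖ + 1) := min_le_right _ _
        rwa [le_div_iff₀ (by positivity)] at this
      nlinarith
  · intro w
    refine ⟨mk (res w 0), ?_⟩
    intro s hs b
    rw [lev_apply (by omega), EVq_mk]
    have := EV_res w 0 ⟨s, by omega⟩ b
    rw [this]
    unfold Tower.ev Tower.acc
    simp

end

end Run7.h480.NEG.SPACE
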